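import Pool.Agent.H5.OR.Targets

/-!
# (KD): classification of the pairs (`⟨a, t | a^p = t^q⟩`, `a`)
-/

set_option autoImplicit false

namespace Pool.Agent.H12.OR

open ORg

section TKl

variable {H : Type} [Group H]

/-- the homomorphism given by two elements with `A ^ p = T ^ q` -/
noncomputable def tkLift {p q : ℤ} (A T : H) (h : A ^ p = T ^ q) : TK p q →* H :=
  PresentedGroup.toGroup (f := fun x : Option Unit => if x = none then T else A) (by
    intro r hr
    rw [Set.mem_singleton_iff] at hr
    subst hr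
    unfold relC
    simp [h])

theorem tkLift_a {p q : ℤ} (A T : H) (h : A ^ p = T ^ q) : tkLift A T h (tkA p q) = A := by
  unfold tkLift tkA
  rw [PresentedGroup.toGroup.of]
  simp

theorem tkLift_t {p q : ℤ} (A T : H) (h : A ^ p = T ^ q) : tkLift A T h (tkT p q) = T := by
  unfold tkLift tkT
  rw [PresentedGroup.toGroup.of]
  simp

theorem tk_rel (p q : ℤ) : tkA p q ^ p = tkT p q ^ q := by
  have h1 : (PresentedGroup.mk ({relC (FreeGroup.of ()) p q} : Set (FreeGroup (Option Unit))))
      (relC (FreeGroup.of ()) p q) = 1 :=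
    PresentedGroup.one_of_mem (Set.mem_singleton _)
  unfold relC at h1
  rw [map_mul, map_inv, map_zpow, map_zpow, FreeGroup.map.of, mul_inv_eq_one] at h1
  exact h1

theorem tk_ext {p q : ℤ} (k l : TK p q →* H) (h1 : k (tkA p q) = l (tkA p q))
    (h2 : k (tkT p q) = l (tkT p q)) : k = l := by
  apply PresentedGroup.ext
  intro x
  rcases x with _ | x
  · exact h2
  · exact h1

end TKl

theorem tk_iso (p q p' q' e f g : ℤ) (he : e * e = 1) (hf : f * f = 1) (h1 : e * p = g * p')
    (h2 : f * q = g * q') (h3 : e * p' = g * p) (h4 : f * q' = g * q) :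
    ∃ β : TK p q ≃* TK p' q', β (tkA p q) = tkA p' q' ^ e := by
  have r1 : (tkA p' q' ^ e) ^ p = (tkT p' q' ^ f) ^ q := by
    rw [← zpow_mul, ← zpow_mul, h1, h2, mul_comm g p', mul_comm g q', zpow_mul, zpow_mul, tk_rel]
  have r2 : (tkA p q ^ e) ^ p' = (tkT p q ^ f) ^ q' := by
    rw [← zpow_mul, ← zpow_mul, h3, h4, mul_comm g p, mul_comm g q, zpow_mul, zpow_mul, tk_rel]
  have l1 : ∀ x, tkLift _ _ r2 (tkLift _ _ r1 x) = x := by
    intro x
    have h := tk_ext ((tkLift _ _ r2).comp (tkLift _ _ r1)) (MonoidHom.id (TK p q))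
      (by rw [MonoidHom.comp_apply, tkLift_a, map_zpow, tkLift_a, ← zpow_mul, he, zpow_one]; rfl)
      (by rw [MonoidHom.comp_apply, tkLift_t, map_zpow, tkLift_t, ← zpow_mul, hf, zpow_one]; rfl)
    exact DFunLike.congr_fun h x
  have l2 : ∀ x, tkLift _ _ r1 (tkLift _ _ r2 x) = x := by
    intro x
    have h := tk_ext ((tkLift _ _ r1).comp (tkLift _ _ r2)) (MonoidHom.id (TK p' q'))
      (by rw [MonoidHom.comp_apply, tkLift_a, map_zpow, tkLift_a, ← zpow_mul, he, zpow_one]; rfl)
      (by rw [MonoidHom.comp_apply, tkLift_t, map_zpow, tkLift_t, ← zpow_mul, hf, zpow_one]; rfl)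
    exact DFunLike.congr_fun h x
  exact ⟨{ toFun := tkLift _ _ r1, invFun := tkLift _ _ r2, left_inv := l1, right_inv := l2,
           map_mul' := map_mul _ }, tkLift_a _ _ r1⟩

/-- the homomorphism of a Baumslag-Solitar group onto the integers -/
noncomputable def bsZ (p q : ℤ) : BS p q →* Multiplicative ℤ :=
  PresentedGroup.toGroup (f := fun x : Option Unit => if x = none then Multiplicative.ofAdd 1
    else 1) (by
    intro r hr
    rw [Set.mem_singleton_iff] at hr
    subst hr
    unfold relA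
    simp)

theorem bsZ_a (p q : ℤ) : bsZ p q (bsA p q) = 1 := by
  unfold bsZ bsA
  rw [PresentedGroup.toGroup.of]
  simp

theorem bsZ_t (p q : ℤ) : bsZ p q (bsT p q) = Multiplicative.ofAdd 1 := by
  unfold bsZ bsT
  rw [PresentedGroup.toGroup.of]
  simp

theorem bsZ_surj (p q : ℤ) : Function.Surjective (bsZ p q) := by
  intro n
  refine ⟨bsT p q ^ (Multiplicative.toAdd n), ?_⟩
  rw [map_zpow, bsZ_t, ← ofAdd_zsmul]
  simp

theorem dvd_dvd_abs {p p' : ℤ} (h : ∀ m : ℤ, p ∣ m ↔ p' ∣ m) : |p'| = |p| := by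
  have h1 : p ∣ p' := (h p').2 dvd_rfl
  have h2 : p' ∣ p := (h p).1 dvd_rfl
  exact abs_eq_abs.2 (Int.associated_iff.1 (associated_of_dvd_dvd h2 h1))

theorem central_zpow {G G' : Type} [Group G] [Group G'] (β : G ≃* G') (a : G) (a' : G')
    (h : β a = a' ∨ β a = a'⁻¹) (m : ℤ) :
    (∀ g : G, g * a ^ m = a ^ m * g) ↔ ∀ g : G', g * a' ^ m = a' ^ m * g := by
  have key : (∀ g : G, g * a ^ m = a ^ m * g) ↔ ∀ g : G', g * (β a) ^ m = (β a) ^ m * g := by
    constructor
    · intro h1 g
      have h2 := congrArg β (h1 (β.symm g))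
      simpa using h2
    · intro h1 g
      apply β.injective
      rw [map_mul, map_mul, map_zpow]
      exact h1 (β g)
  rw [key]
  rcases h with h | h
  · rw [h]
  · rw [h]
    constructor
    · intro h1 g
      have h2 := h1 g
      rw [inv_zpow] at h2
      have h3 : g * a' ^ m = a' ^ m * ((a' ^ m)⁻¹ * g) * a' ^ m := by group
      rw [h3, ← h2]
      group
    · intro h1 g
      have h2 := h1 g
      rw [inv_zpow]
      have h3 : g * (a' ^ m)⁻¹ = (a' ^ m)⁻¹ * (a' ^ m * g) * (a' ^ m)⁻¹ := by group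
      rw [h3, ← h2]
      group

theorem nc_map {G G' : Type} [Group G] [Group G'] (β : G ≃* G') (a : G) (a' : G')
    (h : β a = a' ∨ β a = a'⁻¹) :
    (Subgroup.normalClosure {a}).map (β : G →* G') = Subgroup.normalClosure {a'} := by
  have h1 : (Subgroup.normalClosure {a}).map (β : G →* G') = Subgroup.normalClosure {β a} := by
    rw [Subgroup.map_normalClosure _ _ β.surjective]
    simp
  rw [h1]
  rcases h with h | h
  · rw [h]
  · rw [h]
    apply le_antisymm
    · apply Subgroup.normalClosure_le_normal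
      intro x hx
      rw [Set.mem_singleton_iff] at hx
      rw [hx]
      exact inv_mem (Subgroup.subset_normalClosure (Set.mem_singleton _))
    · apply Subgroup.normalClosure_le_normal
      intro x hx
      rw [Set.mem_singleton_iff] at hx
      rw [hx]
      have h2 := inv_mem (Subgroup.subset_normalClosure (Set.mem_singleton a'⁻¹) :
        a'⁻¹ ∈ Subgroup.normalClosure {a'⁻¹})
      rwa [inv_inv] at h2

theorem card_quot (KI : T_KI) (p q : ℤ) (hp : 2 ≤ |p|) (hq : 2 ≤ |q|) :
    Nat.card (TK p q ⧸ Subgroup.normalClosure {tkA p q}) = q.natAbs := by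
  obtain ⟨e⟩ := (KI p q hp hq).2
  rw [Nat.card_congr e.toEquiv]
  exact Nat.card_zmod _

theorem pf_KD (KI : T_KI) : T_KD := by
  intro p q p' q' hp hq
  refine ⟨fun hp' hq' => ⟨?_, ?_⟩, ?_⟩
  · rintro ⟨β, hβ⟩
    constructor
    · apply dvd_dvd_abs
      intro m
      rw [← (KI p q hp hq).1 m, ← (KI p' q' hp' hq').1 m]
      exact central_zpow β _ _ hβ m
    · have e := QuotientGroup.congr _ _ β (nc_map β _ _ hβ)
      have h1 := Nat.card_congr e.toEquiv
      rw [card_quot KI p q hp hq, card_quot KI p' q' hp' hq'] at h1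
      rw [Int.abs_eq_natAbs, Int.abs_eq_natAbs, h1]
  · rintro ⟨h1, h2⟩
    have key : ∀ e : ℤ, e = 1 ∨ e = -1 → ∃ β : TK p q ≃* TK p' q',
        β (tkA p q) = tkA p' q' ^ e := by
      intro e he
      rcases abs_eq_abs.1 h1 with h3 | h3 <;> rcases abs_eq_abs.1 h2 with h4 | h4 <;>
        rcases he with he | he <;> subst he <;> rw [h3, h4]
      · exact tk_iso p q p q 1 1 1 (by ring) (by ring) (by ring) (by ring) (by ring) (by ring)
      · exact tk_iso p q p q (-1) (-1) (-1) (by ring) (by ring) (by ring) (by ring) (by ring)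
          (by ring)
      · exact tk_iso p q p (-q) 1 (-1) 1 (by ring) (by ring) (by ring) (by ring) (by ring)
          (by ring)
      · exact tk_iso p q p (-q) (-1) 1 (-1) (by ring) (by ring) (by ring) (by ring) (by ring)
          (by ring)
      · exact tk_iso p q (-p) q 1 (-1) (-1) (by ring) (by ring) (by ring) (by ring) (by ring)
          (by ring)
      · exact tk_iso p q (-p) q (-1) 1 1 (by ring) (by ring) (by ring) (by ring) (by ring)
          (by ring)
      · exact tk_iso p q (-p) (-q) 1 1 (-1) (by ring) (by ring) (by ring) (by ring) (by ring)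
          (by ring)
      · exact tk_iso p q (-p) (-q) (-1) (-1) 1 (by ring) (by ring) (by ring) (by ring) (by ring)
          (by ring)
    constructor
    · obtain ⟨β, hβ⟩ := key 1 (Or.inl rfl)
      exact ⟨β, by rw [hβ, zpow_one]⟩
    · obtain ⟨β, hβ⟩ := key (-1) (Or.inr rfl)
      exact ⟨β, by rw [hβ, zpow_neg_one]⟩
  · rintro - - ⟨β, hβ⟩
    set ψ : TK p q →* Multiplicative ℤ := (bsZ p' q').comp β.toMonoidHom with hψ
    have h1 : ψ (tkA p q) = 1 := by
      show bsZ p' q' (β (tkA p q)) = 1
      rcases hβ with h | h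
      · rw [h, bsZ_a]
      · rw [h, map_inv, bsZ_a, inv_one]
    have h2 : Subgroup.normalClosure {tkA p q} ≤ ψ.ker := by
      apply Subgroup.normalClosure_le_normal
      intro x hx
      rw [Set.mem_singleton_iff] at hx
      rw [hx]
      exact h1
    have hs : Function.Surjective ψ := (bsZ_surj p' q').comp β.surjective
    have hs' : Function.Surjective (QuotientGroup.lift _ ψ h2) := by
      intro n
      obtain ⟨x, hx⟩ := hs n
      exact ⟨(x : TK p q ⧸ Subgroup.normalClosure {tkA p q}), hx⟩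
    have hcard := card_quot KI p q hp hq
    have hpos : 0 < Nat.card (TK p q ⧸ Subgroup.normalClosure {tkA p q}) := by
      rw [hcard, Int.natAbs_pos]
      intro h0
      rw [h0] at hq
      norm_num at hq
    have hfin : Finite (TK p q ⧸ Subgroup.normalClosure {tkA p q}) :=
      (Nat.card_pos_iff.1 hpos).2
    have hfin' : Finite (Multiplicative ℤ) := Finite.of_surjective _ hs'
    exact not_finite (Multiplicative ℤ)

end Pool.Agent.H12.OR
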