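import Pool.Agent.H5.OR.Targets

/-!
# (F7): both subgroups are preserved after a conjugation
-/

set_option autoImplicit false

namespace Pool.Agent.H12.OR

open ORg

theorem of_not_comm {X : Type} {x y : X} (h : x ≠ y) :
    FreeGroup.of x * FreeGroup.of y ≠ FreeGroup.of y * FreeGroup.of x := by
  classical
  intro heq
  have h1 := congrArg (FreeGroup.lift (fun z : X => if z = x then
    (Equiv.swap 0 1 : Equiv.Perm (Fin 3)) else Equiv.swap 1 2)) heq
  simp only [map_mul, FreeGroup.lift_apply_of, if_true, if_neg h.symm] at h1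
  exact absurd h1 (by decide)

theorem no_cyclic {X1 : Type} [Nontrivial X1] (w : FreeGroup X1)
    (h : ∀ y : FreeGroup X1, ∃ k : ℤ, y = w ^ k) : False := by
  obtain ⟨x, y, hxy⟩ := exists_pair_ne X1
  obtain ⟨k, hk⟩ := h (FreeGroup.of x)
  obtain ⟨l, hl⟩ := h (FreeGroup.of y)
  apply of_not_comm hxy
  rw [hk, hl, ← zpow_add, ← zpow_add, add_comm]

theorem pf_F7 (TA : T_TA) (TN : T_TN) (F3 : T_F3) (F5 : T_F5) (F6 : T_F6) : T_F7 := by
  intro X1 X2 P G _ _ w a iF iP S r b X1' X2' P' G' _ _ w' a' iF' iP' S' r' b' hS hS' ⟨φ0⟩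
  obtain ⟨g, hg⟩ := F3 X1 X2 P G w a iF iP S r b X1' X2' P' G' w' a' iF' iP' S' r' b' hS hS' φ0
  set φ1 : G ≃* G' := φ0.trans (MulAut.conj g) with hφ1
  have e1 : ∀ x, φ1 x = g * φ0 x * g⁻¹ := fun x => rfl
  have A1 : ∀ x : G, x ∈ iP.range ↔ φ1 x ∈ iP'.range := fun x => by rw [e1]; exact hg x
  obtain ⟨p, hp, hp5⟩ := F5 X1 X2 P G w a iF iP S r b X1' X2' P' G' w' a' iF' iP' S' r' b' hS hS'
    φ1 A1
  set φ : G ≃* G' := φ1.trans (MulAut.conj p) with hφ
  have e2 : ∀ x, φ x = p * φ1 x * p⁻¹ := fun x => rfl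
  have A2 : ∀ x : G, x ∈ iP.range ↔ φ x ∈ iP'.range := by
    intro x
    rw [e2, A1 x]
    constructor
    · intro h
      exact mul_mem (mul_mem hp h) (inv_mem hp)
    · intro h
      have h1 := mul_mem (mul_mem (inv_mem hp) h) hp
      have h2 : p⁻¹ * (p * φ1 x * p⁻¹) * p = φ1 x := by group
      rwa [h2] at h1
  have h5 : ∀ y : FreeGroup X1, φ (iF (fl y)) ∈ iF'.range := fun y => by
    rw [e2]; exact hp5 y
  have h6 := F6 X1 X2 P G w a iF iP S r b X1' X2' P' G' w' a' iF' iP' S' r' b' hS hS' φ A2 h5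
  have A3 : ∀ x : G', x ∈ iP'.range ↔ φ.symm x ∈ iP.range := by
    intro x
    rw [A2 (φ.symm x), MulEquiv.apply_symm_apply]
  obtain ⟨p0, hp0, hq⟩ := F5 X1' X2' P' G' w' a' iF' iP' S' r' b' X1 X2 P G w a iF iP S r b hS' hS
    φ.symm A3
  -- the free factor fixes `p0⁻¹ • b`
  have k1 : ∀ y : FreeGroup X1, p0 * iF (fl y) * p0⁻¹ ∈ iF.range := by
    intro y
    obtain ⟨y', hy'⟩ := h6 y
    have h7 := hq y'
    have h8 : iF' (fl y') = φ (iF (fl y)) := hy'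
    rw [h8, MulEquiv.symm_apply_apply] at h7
    exact h7
  have k2 : ∀ y : FreeGroup X1, iF (fl y) • (p0⁻¹ • b) = p0⁻¹ • b := by
    intro y
    have h7 := (hS.am.stB _).2 (k1 y)
    rw [mul_smul, mul_smul] at h7
    rw [eq_inv_smul_iff]
    exact h7
  have k3 : ∀ y : FreeGroup X1, iF (fl y) • b = b := fun y =>
    (hS.am.stB _).2 ⟨fl y, rfl⟩
  have k4 : p0⁻¹ • r = r := (hS.am.stA _).2 (inv_mem hp0)
  have k5 : S.T.Adj r (p0⁻¹ • b) := by
    have h7 := S.adj p0⁻¹ r b hS.am.adj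
    rwa [k4] at h7
  obtain ⟨-, -, -, t4, t5, -, t7, -⟩ := TA G S
  have k6 : p0⁻¹ • b = b := by
    by_contra hne
    have h7 : p0⁻¹ • b ∈ S.hs r b := by
      rcases (t4 r b hS.am.adj (p0⁻¹ • b)).1 with h | h
      · exact h
      · exact absurd (t7 r b hS.am.adj r (p0⁻¹ • b) k5 (t5 r b hS.am.adj).1 h).2 hne
    have h8 : b ∈ S.hs b r := (t5 b r hS.am.adj.symm).1
    have h9 : ∀ y : FreeGroup X1, iF (fl y) • r = r := fun y =>
      ((TN G S).2.2 (iF (fl y)) b (p0⁻¹ • b) b r (k3 y) (k2 y) hS.am.adj.symm h8 h7).2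
    haveI : Nontrivial X1 := hS.nt
    apply no_cyclic w
    intro y
    obtain ⟨q, hq'⟩ := (hS.am.stA _).1 (h9 y)
    obtain ⟨k, hk, -⟩ := hS.inter (fl y) q hq'.symm
    refine ⟨k, ?_⟩
    have hinj : Function.Injective (fl : FreeGroup X1 →* FreeGroup (X1 ⊕ X2)) :=
      FreeGroup.map_injective Sum.inl_injective
    apply hinj
    rw [hk, map_zpow]
  have k7 : p0 ∈ iF.range := by
    apply (hS.am.stB _).1
    rw [← k6, smul_inv_smul, k6]
  have h5' : ∀ y : FreeGroup X1', φ.symm (iF' (fl y)) ∈ iF.range := by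
    intro y
    have h7 := mul_mem (mul_mem (inv_mem k7) (hq y)) k7
    have h8 : p0⁻¹ * (p0 * φ.symm (iF' (fl y)) * p0⁻¹) * p0 = φ.symm (iF' (fl y)) := by group
    rwa [h8] at h7
  have h6' := F6 X1' X2' P' G' w' a' iF' iP' S' r' b' X1 X2 P G w a iF iP S r b hS' hS φ.symm A3
    h5'
  refine ⟨φ, A2, fun x => ?_⟩
  constructor
  · rintro ⟨y, rfl⟩
    exact h6 y
  · rintro ⟨y, hy⟩
    have h7 := h6' y
    have h8 : iF' (fl y) = φ x := hy
    rw [h8, MulEquiv.symm_apply_apply] at h7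
    exact h7

end Pool.Agent.H12.OR
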