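import Pool.Agent.H5.OR.Targets

/-!
# (RI): rigidity of amalgamated products
-/

set_option autoImplicit false

namespace Pool.Agent.H12.OR

open ORg

section Comb

variable {X1 X2 Y1 Y2 : Type}

/-- the combination of two homomorphisms -/
noncomputable def comb (α : FreeGroup X1 →* FreeGroup Y1) (γ : FreeGroup X2 →* FreeGroup Y2) :
    FreeGroup (X1 ⊕ X2) →* FreeGroup (Y1 ⊕ Y2) :=
  FreeGroup.lift (Sum.elim (fun x => (fl (α (FreeGroup.of x)) : FreeGroup (Y1 ⊕ Y2)))
    (fun x => FreeGroup.map Sum.inr (γ (FreeGroup.of x))))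

theorem comb_fl (α : FreeGroup X1 →* FreeGroup Y1) (γ : FreeGroup X2 →* FreeGroup Y2)
    (y : FreeGroup X1) : comb α γ (fl y) = fl (α y) := by
  have h : (comb α γ).comp fl = (fl : FreeGroup Y1 →* FreeGroup (Y1 ⊕ Y2)).comp α := by
    apply FreeGroup.ext_hom
    intro x
    simp [comb]
  exact DFunLike.congr_fun h y

theorem comb_inr (α : FreeGroup X1 →* FreeGroup Y1) (γ : FreeGroup X2 →* FreeGroup Y2)
    (y : FreeGroup X2) :
    comb α γ (FreeGroup.map Sum.inr y) = FreeGroup.map Sum.inr (γ y) := by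
  have h : (comb α γ).comp (FreeGroup.map Sum.inr) =
      (FreeGroup.map Sum.inr : FreeGroup Y2 →* FreeGroup (Y1 ⊕ Y2)).comp γ := by
    apply FreeGroup.ext_hom
    intro x
    simp [comb]
  exact DFunLike.congr_fun h y

theorem comb_inv (α : FreeGroup X1 ≃* FreeGroup Y1) (γ : FreeGroup X2 ≃* FreeGroup Y2)
    (y : FreeGroup (X1 ⊕ X2)) :
    comb α.symm.toMonoidHom γ.symm.toMonoidHom (comb α.toMonoidHom γ.toMonoidHom y) = y := by
  have h : (comb α.symm.toMonoidHom γ.symm.toMonoidHom).comp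
      (comb α.toMonoidHom γ.toMonoidHom) = MonoidHom.id _ := by
    apply FreeGroup.ext_hom
    intro x
    rcases x with x | x
    · have h1 : (FreeGroup.of (Sum.inl x) : FreeGroup (X1 ⊕ X2)) = fl (FreeGroup.of x) := by simp
      rw [MonoidHom.comp_apply, h1, comb_fl, comb_fl, MonoidHom.id_apply]
      simp
    · have h1 : (FreeGroup.of (Sum.inr x) : FreeGroup (X1 ⊕ X2)) =
          FreeGroup.map Sum.inr (FreeGroup.of x) := by simp
      rw [MonoidHom.comp_apply, h1, comb_inr, comb_inr, MonoidHom.id_apply]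
      simp
  exact DFunLike.congr_fun h y

/-- the combination of two isomorphisms -/
noncomputable def combE (α : FreeGroup X1 ≃* FreeGroup Y1) (γ : FreeGroup X2 ≃* FreeGroup Y2) :
    FreeGroup (X1 ⊕ X2) ≃* FreeGroup (Y1 ⊕ Y2) where
  toFun := comb α.toMonoidHom γ.toMonoidHom
  invFun := comb α.symm.toMonoidHom γ.symm.toMonoidHom
  left_inv := comb_inv α γ
  right_inv := comb_inv α.symm γ.symm
  map_mul' := map_mul _

theorem combE_fl (α : FreeGroup X1 ≃* FreeGroup Y1) (γ : FreeGroup X2 ≃* FreeGroup Y2)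
    (y : FreeGroup X1) : combE α γ (fl y) = fl (α y) := comb_fl _ _ y

end Comb

theorem po_comm {A B G : Type} [Group A] [Group B] [Group G] {w : A} {a : B} {iF : A →* G}
    {iP : B →* G} (h : IsPO (zpowersHom A w) (zpowersHom B a) iF iP) : iF w = iP a := by
  have h1 := h.comm (Multiplicative.ofAdd 1)
  simpa using h1

theorem po_transport {A A' B G : Type} [Group A] [Group A'] [Group B] [Group G] {w : A} {w' : A'}
    {a : B} {iF : A →* G} {iP : B →* G} (h : IsPO (zpowersHom A w) (zpowersHom B a) iF iP)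
    (α : A ≃* A') (hα : α w = w') :
    IsPO (zpowersHom A' w') (zpowersHom B a) (iF.comp α.symm.toMonoidHom) iP := by
  refine ⟨?_, ?_, ?_⟩
  · intro n
    have h1 := h.comm n
    rw [← h1]
    simp only [zpowersHom_apply, MonoidHom.comp_apply, map_zpow, MulEquiv.toMonoidHom_eq_coe,
      MonoidHom.coe_coe]
    rw [← hα, MulEquiv.symm_apply_apply]
  · intro K _ u v huv
    obtain ⟨k, k1, k2⟩ := h.lift K (u.comp α.toMonoidHom) v (by
      intro n
      rw [← huv n]
      simp only [zpowersHom_apply, MonoidHom.comp_apply, map_zpow, MulEquiv.toMonoidHom_eq_coe,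
        MonoidHom.coe_coe, hα])
    refine ⟨k, fun x => ?_, k2⟩
    have h1 := k1 (α.symm x)
    simp only [MonoidHom.comp_apply, MulEquiv.toMonoidHom_eq_coe, MonoidHom.coe_coe,
      MulEquiv.apply_symm_apply] at h1 ⊢
    exact h1
  · intro K _ k l h1 h2
    refine h.uniq K k l (fun x => ?_) h2
    have h3 := h1 (α x)
    simpa using h3

theorem po_hom {A B G A' B' G' : Type} [Group A] [Group B] [Group G] [Group A'] [Group B']
    [Group G'] {w : A} {a : B} {iF : A →* G} {iP : B →* G} {w' : A'} {a' : B'} {iF' : A' →* G'}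
    {iP' : B' →* G'} (h : IsPO (zpowersHom A w) (zpowersHom B a) iF iP)
    (h' : IsPO (zpowersHom A' w') (zpowersHom B' a') iF' iP')
    (α : A ≃* A') (β : B ≃* B') (hαβ : (α w = w' ∧ β a = a') ∨ (α w = w'⁻¹ ∧ β a = a'⁻¹)) :
    ∃ k : G →* G', (∀ x, k (iF x) = iF' (α x)) ∧ ∀ x, k (iP x) = iP' (β x) := by
  have hc := po_comm h'
  obtain ⟨k, k1, k2⟩ := h.lift G' (iF'.comp α.toMonoidHom) (iP'.comp β.toMonoidHom) (by
    intro n
    simp only [zpowersHom_apply, MonoidHom.comp_apply, map_zpow, MulEquiv.toMonoidHom_eq_coe,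
      MonoidHom.coe_coe]
    rcases hαβ with ⟨h1, h2⟩ | ⟨h1, h2⟩
    · rw [h1, h2, hc]
    · rw [h1, h2, map_inv, map_inv, hc])
  exact ⟨k, k1, k2⟩

theorem pf_RI (WR : T_WR) (CO : T_CO) : T_RI := by
  intro X X' P P' G G' _ _ _ _ _ _ w w' a a' iF iP iF' iP' hpo hpo' hr hnp hkk hinf hr' hnp'
    hkk' hinf'
  constructor
  · intro hG
    obtain ⟨X1, X2, fX1, fX2, α0, w1, e1, r1, wh1, nt1⟩ := WR X w hr hnp
    obtain ⟨X1', X2', fX1', fX2', α0', w1', e1', r1', wh1', nt1'⟩ := WR X' w' hr' hnp'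
    have p1 := po_transport hpo α0 e1
    have p1' := po_transport hpo' α0' e1'
    obtain ⟨α1, β, ⟨γ⟩, hor⟩ := CO X1 X2 P G w1 a _ iP X1' X2' P' G' w1' a' _ iP' p1 p1' r1 wh1
      fX1 nt1 hkk hinf r1' wh1' fX1' nt1' hkk' hinf' hG
    refine ⟨α0.trans ((combE α1 γ).trans α0'.symm), β, ?_⟩
    have h1 : (α0.trans ((combE α1 γ).trans α0'.symm)) w = α0'.symm (fl (α1 w1)) := by
      simp only [MulEquiv.trans_apply]
      rw [e1, combE_fl]
    rw [h1]
    rcases hor with ⟨h2, h3⟩ | ⟨h2, h3⟩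
    · left
      refine ⟨?_, h3⟩
      rw [h2, ← e1', MulEquiv.symm_apply_apply]
    · right
      refine ⟨?_, h3⟩
      rw [h2, map_inv, ← e1', map_inv, MulEquiv.symm_apply_apply]
  · rintro ⟨α, β, hαβ⟩
    obtain ⟨k, k1, k2⟩ := po_hom hpo hpo' α β hαβ
    have hαβ' : (α.symm w' = w ∧ β.symm a' = a) ∨ (α.symm w' = w⁻¹ ∧ β.symm a' = a⁻¹) := by
      rcases hαβ with ⟨h1, h2⟩ | ⟨h1, h2⟩
      · left
        exact ⟨by rw [← h1, MulEquiv.symm_apply_apply], by rw [← h2, MulEquiv.symm_apply_apply]⟩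
      · right
        constructor
        · rw [← inv_inj, ← map_inv, ← h1, MulEquiv.symm_apply_apply, inv_inv]
        · rw [← inv_inj, ← map_inv, ← h2, MulEquiv.symm_apply_apply, inv_inv]
    obtain ⟨l, l1, l2⟩ := po_hom hpo' hpo α.symm β.symm hαβ'
    have hlk : ∀ x, l (k x) = x := by
      have h := hpo.uniq G (l.comp k) (MonoidHom.id G)
        (fun x => by simp [k1, l1]) (fun x => by simp [k2, l2])
      intro x
      exact DFunLike.congr_fun h x
    have hkl : ∀ x, k (l x) = x := by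
      have h := hpo'.uniq G' (k.comp l) (MonoidHom.id G')
        (fun x => by simp [k1, l1]) (fun x => by simp [k2, l2])
      intro x
      exact DFunLike.congr_fun h x
    exact ⟨{ toFun := k, invFun := l, left_inv := hlk, right_inv := hkl, map_mul' := map_mul k }⟩

end Pool.Agent.H12.OR
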